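import Pool.Agent.W763.PB.Stm

/-!
# Project PB: sums over `ZMod` as sums over `range`
-/

set_option autoImplicit false
open Finset

namespace Pool.Agent.W977.PB.Z0

open Pool.Agent.W763.PB

theorem z0 : S_Z0 := by
  intro N hN f
  cases N with
  | zero => exact absurd rfl hN.out
  | succ n => exact Fin.sum_univ_eq_sum_range f (n + 1)

end Pool.Agent.W977.PB.Z0
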